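import Mathlib

/-! # Project LI, job FI: the fundamental identity modulo two for valuation rings over a discrete
valuation ring -/

set_option autoImplicit false

namespace Pool.Agent.Y692.LI

open Module IsDedekindDomain IsLocalRing

noncomputable section

/-- the map from the base ring to the residue field -/
def psi {A N : Type} [CommRing A] [Field N] [Algebra A N] (O : ValuationSubring N)
    (h : ∀ a : A, algebraMap A N a ∈ O) {κ : Type} [Field κ] (ρ : O →+* κ) : A →+* κ :=
  ρ.comp ((algebraMap A N).codRestrict O h)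

lemma psi_apply {A N : Type} [CommRing A] [Field N] [Algebra A N] (O : ValuationSubring N)
    (h : ∀ a : A, algebraMap A N a ∈ O) {κ : Type} [Field κ] (ρ : O →+* κ) (a : A) :
    psi O h ρ a = ρ ⟨algebraMap A N a, h a⟩ := rfl

lemma finrank_of_range {K1 K2 N : Type} [CommRing K1] [CommRing K2] [CommRing N] [Algebra K1 N]
    [Algebra K2 N] (i1 : Function.Injective (algebraMap K1 N))
    (i2 : Function.Injective (algebraMap K2 N))
    (h : (algebraMap K1 N).range = (algebraMap K2 N).range) : finrank K1 N = finrank K2 N := by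
  let e1 : K1 ≃+* (algebraMap K1 N).range := RingEquiv.ofBijective (algebraMap K1 N).rangeRestrict
    ⟨fun a b hab => i1 (congrArg Subtype.val hab), (algebraMap K1 N).rangeRestrict_surjective⟩
  let e2 : K2 ≃+* (algebraMap K2 N).range := RingEquiv.ofBijective (algebraMap K2 N).rangeRestrict
    ⟨fun a b hab => i2 (congrArg Subtype.val hab), (algebraMap K2 N).rangeRestrict_surjective⟩
  let i : K1 ≃+* K2 := (e1.trans (RingEquiv.subringCongr h)).trans e2.symm
  have hi : ∀ a, algebraMap K2 N (i a) = algebraMap K1 N a := by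
    intro a
    have h1 : e2 (i a) = RingEquiv.subringCongr h (e1 a) := e2.apply_symm_apply _
    exact congrArg Subtype.val h1
  exact Algebra.finrank_eq_of_equiv_equiv i (RingEquiv.refl N) (by ext a; exact hi a)

/-- the kernel of a surjective map onto a field -/
lemma rho_eq_zero {N : Type} [Field N] {O : ValuationSubring N} {κ : Type} [Field κ]
    (ρ : O →+* κ) (hρ : Function.Surjective ρ) (a : O) : ρ a = 0 ↔ (a : N) ∈ O.nonunits := by
  rw [ValuationSubring.coe_mem_nonunits_iff]
  have h1 : (RingHom.ker ρ).IsMaximal := RingHom.ker_isMaximal_of_surjective ρ hρ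
  rw [← IsLocalRing.eq_maximalIdeal h1, RingHom.mem_ker]

section

variable {A N : Type} [CommRing A] [Field N] [Algebra A N]

lemma int_mem (O : ValuationSubring N) (h : ∀ a : A, algebraMap A N a ∈ O)
    (s : integralClosure A N) : (s : N) ∈ O := by
  obtain ⟨p, hp, hs⟩ := s.2
  have h1 : IsIntegral O (s : N) := by
    refine ⟨p.map ((algebraMap A N).codRestrict O h), hp.map _, ?_⟩
    rw [Polynomial.eval₂_map]
    exact hs
  obtain ⟨y, hy⟩ := IsIntegrallyClosed.isIntegral_iff.1 h1
  rw [← hy]
  exact y.2

/-- the inclusion of the integral closure -/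
def iota (O : ValuationSubring N) (h : ∀ a : A, algebraMap A N a ∈ O) :
    integralClosure A N →+* O :=
  (algebraMap (integralClosure A N) N).codRestrict O (int_mem O h)

end

section

variable {A K N : Type} [CommRing A] [IsDomain A] [IsDiscreteValuationRing A] [Field K] [Field N]
  [Algebra A K] [IsFractionRing A K] [Algebra K N] [Algebra A N] [IsScalarTower A K N]
  [IsDedekindDomain (integralClosure A N)]
  [IsFractionRing (integralClosure A N) N]

/-- the centre of a valuation ring -/
lemma center (O : ValuationSubring N) (h : ∀ a : A, algebraMap A N a ∈ O)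
    (hm : ∀ a ∈ maximalIdeal A, algebraMap A N a ∈ O.nonunits) (hO : O ≠ ⊤)
    (π : A) (hπ : π ∈ maximalIdeal A) (hπ0 : algebraMap A N π ≠ 0) :
    ∃ v : HeightOneSpectrum (integralClosure A N),
      (v.valuation N).valuationSubring = O ∧ v.asIdeal.LiesOver (maximalIdeal A) ∧
      (∀ s : integralClosure A N, s ∈ v.asIdeal ↔ (s : N) ∈ O.nonunits) := by
  have hpr : (Ideal.comap (iota O h) (maximalIdeal O)).IsPrime := inferInstance
  have hmem : ∀ s : integralClosure A N, s ∈ Ideal.comap (iota O h) (maximalIdeal O) ↔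
      (s : N) ∈ O.nonunits := by
    intro s
    rw [Ideal.mem_comap, ← ValuationSubring.coe_mem_nonunits_iff]
    rfl
  have hne : Ideal.comap (iota O h) (maximalIdeal O) ≠ ⊥ := by
    intro h0
    have h1 : algebraMap A (integralClosure A N) π ∈ Ideal.comap (iota O h) (maximalIdeal O) :=
      (hmem _).2 (hm π hπ)
    rw [h0, Ideal.mem_bot] at h1
    exact hπ0 (congrArg (fun s : integralClosure A N => (s : N)) h1)
  let v : HeightOneSpectrum (integralClosure A N) := ⟨_, hpr, hne⟩
  refine ⟨v, ?_, ?_, hmem⟩
  · rw [← HeightOneSpectrum.valuationSubringAtPrime_eq_valuationSubring]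
    refine ValuationSubring.eq_of_le_of_ne_top _ ?_ hO
    rw [HeightOneSpectrum.valuationSubringAtPrime_eq_valuationSubring]
    intro x hx
    rw [Valuation.mem_valuationSubring_iff] at hx
    obtain ⟨n, d, hnd⟩ := v.exists_primeCompl_mul_eq_of_integer x hx
    have hd : ((d : integralClosure A N) : N) ∉ O.nonunits := fun hd => d.2 ((hmem _).2 hd)
    rw [ValuationSubring.mem_nonunits_iff_or] at hd
    push Not at hd
    have e : x = (n : N) * ((d : integralClosure A N) : N)⁻¹ := by
      rw [eq_mul_inv_iff_mul_eq₀ hd.1]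
      exact hnd
    rw [e]
    exact O.mul_mem _ _ (int_mem O h n) hd.2
  · constructor
    refine (maximalIdeal.isMaximal A).eq_of_le (Ideal.comap_ne_top _ hpr.ne_top) ?_
    intro a ha
    exact (hmem _).2 (hm a ha)

lemma mem_center (v : HeightOneSpectrum (integralClosure A N)) (O : ValuationSubring N)
    (hO : (v.valuation N).valuationSubring = O) (s : integralClosure A N) :
    s ∈ v.asIdeal ↔ (s : N) ∈ O.nonunits := by
  have h1 : (v.valuation N) (s : N) < 1 ↔ s ∈ v.asIdeal :=
    HeightOneSpectrum.valuation_lt_one_iff_mem (K := N) v s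
  rw [← h1, ValuationSubring.mem_nonunits_iff_or,
    ← hO, Valuation.mem_valuationSubring_iff, map_inv₀]
  by_cases h0 : (s : N) = 0
  · simp [h0]
  · have h2 : (v.valuation N) (s : N) ≠ 0 := (Valuation.ne_zero_iff _).2 h0
    rw [or_iff_right h0, not_le, one_lt_inv₀ (zero_lt_iff.2 h2)]

/-- the residue degree -/
lemma deg_res (v : HeightOneSpectrum (integralClosure A N)) [v.asIdeal.LiesOver (maximalIdeal A)]
    (O : ValuationSubring N) (hO : (v.valuation N).valuationSubring = O)
    (h : ∀ a : A, algebraMap A N a ∈ O) {κ : Type} [Field κ] (ρ : O →+* κ)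
    (hρ : Function.Surjective ρ) :
    Ideal.inertiaDeg' (maximalIdeal A) v.asIdeal = finrank (psi O h ρ).range κ := by
  have hker : RingHom.ker (ρ.comp (iota O h)) = v.asIdeal := by
    ext s
    rw [RingHom.mem_ker, mem_center v O hO, RingHom.comp_apply, rho_eq_zero ρ hρ]
    rfl
  have hmax : v.asIdeal.IsMaximal := v.isPrime.isMaximal v.ne_bot
  have hsurj : Function.Surjective (ρ.comp (iota O h)) := by
    intro y
    obtain ⟨a, rfl⟩ := hρ y
    have ha : (v.valuation N) (a : N) ≤ 1 := by
      rw [← Valuation.mem_valuationSubring_iff, hO]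
      exact a.2
    obtain ⟨n, d, hnd⟩ := v.exists_primeCompl_mul_eq_of_integer (a : N) ha
    obtain ⟨t, ht⟩ := Ideal.Quotient.exists_inv (I := v.asIdeal)
      (a := Ideal.Quotient.mk v.asIdeal (d : integralClosure A N))
      (by rw [Ne, Ideal.Quotient.eq_zero_iff_mem]; exact d.2)
    obtain ⟨t, rfl⟩ := Ideal.Quotient.mk_surjective t
    rw [← map_mul, ← map_one (Ideal.Quotient.mk v.asIdeal), Ideal.Quotient.eq] at ht
    refine ⟨n * t, ?_⟩
    have h1 : ρ.comp (iota O h) ((d : integralClosure A N) * t) = 1 := by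
      rw [← sub_eq_zero, ← map_one (ρ.comp (iota O h)), ← map_sub, ← RingHom.mem_ker, hker]
      exact ht
    have h2 : iota O h n = a * iota O h d := Subtype.ext hnd.symm
    have h3 : ρ.comp (iota O h) n = ρ a * ρ.comp (iota O h) d := by
      rw [RingHom.comp_apply, h2, map_mul]
      rfl
    rw [map_mul, h3, mul_assoc, ← map_mul, h1, mul_one]
  let j : (integralClosure A N ⧸ v.asIdeal) ≃+* κ :=
    (Ideal.quotEquivOfEq hker.symm).trans (RingHom.quotientKerEquivOfSurjective hsurj)
  have hj : ∀ s, j (Ideal.Quotient.mk _ s) = ρ.comp (iota O h) s := fun s => rfl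
  rw [Ideal.inertiaDeg'_algebraMap]
  let _ : Algebra (A ⧸ maximalIdeal A) κ :=
    (j.toRingHom.comp (algebraMap (A ⧸ maximalIdeal A)
      (integralClosure A N ⧸ v.asIdeal))).toAlgebra
  have e1 : finrank (A ⧸ maximalIdeal A) (integralClosure A N ⧸ v.asIdeal) =
      finrank (A ⧸ maximalIdeal A) κ :=
    Algebra.finrank_eq_of_equiv_equiv (RingEquiv.refl _) j rfl
  have hal : ∀ a : A, algebraMap (A ⧸ maximalIdeal A) κ (Ideal.Quotient.mk _ a) =
      psi O h ρ a := fun a => rfl
  rw [e1]
  refine finrank_of_range ?_ ?_ ?_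
  · let _ : Field (A ⧸ maximalIdeal A) := Ideal.Quotient.field _
    exact (algebraMap (A ⧸ maximalIdeal A) κ).injective
  · exact Subtype.val_injective
  · ext y
    constructor
    · rintro ⟨a, rfl⟩
      obtain ⟨a, rfl⟩ := Ideal.Quotient.mk_surjective a
      rw [hal]
      exact ⟨⟨_, a, rfl⟩, rfl⟩
    · rintro ⟨⟨_, a, rfl⟩, rfl⟩
      exact ⟨Ideal.Quotient.mk _ a, rfl⟩

end

section

variable {A : Type} (K : Type) {N : Type} [CommRing A] [IsDomain A] [IsDiscreteValuationRing A]
  [Field K] [Field N]
  [Algebra A K] [IsFractionRing A K] [Algebra K N] [Algebra A N] [IsScalarTower A K N]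
  [FiniteDimensional K N] [Algebra.IsSeparable K N]

/-- the fundamental identity modulo two -/
theorem gen (O₀ : ValuationSubring N) (hA₀ : ∀ a : A, algebraMap A N a ∈ O₀)
    (hm₀ : ∀ a ∈ maximalIdeal A, algebraMap A N a ∈ O₀.nonunits) (κ₀ : Type) [Field κ₀]
    (ρ₀ : O₀ →+* κ₀) (hρ₀ : Function.Surjective ρ₀) (π : A) (hπ : π ∈ maximalIdeal A)
    (hπ0 : π ≠ 0) (hun : ∀ a ∈ O₀.nonunits, a / algebraMap A N π ∈ O₀)
    (hodd : Odd (finrank (psi O₀ hA₀ ρ₀).range κ₀))
    (heven : ∀ (O : ValuationSubring N) (hA : ∀ a : A, algebraMap A N a ∈ O),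
      (∀ a ∈ maximalIdeal A, algebraMap A N a ∈ O.nonunits) → ∀ (κ : Type) [Field κ]
      (ρ : O →+* κ), Function.Surjective ρ → O ≠ O₀ → Even (finrank (psi O hA ρ).range κ)) :
    Odd (finrank K N) := by
  classical
  have i1 : IsDedekindDomain (integralClosure A N) := integralClosure.isDedekindDomain A K N
  have i2 : IsFractionRing (integralClosure A N) N :=
    integralClosure.isFractionRing_of_finite_extension K N
  have i3 : Module.Finite A (integralClosure A N) := IsIntegralClosure.finite A K N _
  have hinj : Function.Injective (algebraMap A N) := by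
    rw [IsScalarTower.algebraMap_eq A K N]
    exact (algebraMap K N).injective.comp (IsFractionRing.injective A K)
  have i4 : Module.IsTorsionFree A N := Module.isTorsionFree_iff_algebraMap_injective.2 hinj
  have hπN : algebraMap A N π ≠ 0 := fun h => hπ0 (hinj (by rw [h, map_zero]))
  have hm0 : maximalIdeal A ≠ ⊥ := by
    intro h
    rw [h, Ideal.mem_bot] at hπ
    exact hπ0 hπ
  have hO₀ : O₀ ≠ ⊤ := by
    intro h
    have h1 := hm₀ π hπ
    rw [ValuationSubring.mem_nonunits_iff_or] at h1
    rcases h1 with h1 | h1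
    · exact hπN h1
    · exact h1 (by rw [h]; exact ValuationSubring.mem_top _)
  obtain ⟨v, hv, hvl, hvm⟩ := center O₀ hA₀ hm₀ hO₀ π hπ hπN
  have key := Ideal.sum_ramification_inertia (integralClosure A N) K N (p := maximalIdeal A) hm0
  have hvP : v.asIdeal ∈ IsDedekindDomain.primesOverFinset (maximalIdeal A) (integralClosure A N) :=
    (IsDedekindDomain.mem_primesOverFinset_iff hm0 _).2 ⟨v.isPrime, hvl⟩
  rw [← Finset.add_sum_erase _ _ hvP] at key
  rw [← key]
  refine Odd.add_even ?_ ?_
  · have e1 : Ideal.ramificationIdx' (maximalIdeal A) v.asIdeal = 1 := by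
      refine Ideal.ramificationIdx'_spec ?_ ?_
      · rw [pow_one, Ideal.map_le_iff_le_comap]
        exact hvl.over.le
      · intro hle
        have h1 : algebraMap A (integralClosure A N) π ∈ v.asIdeal ^ 2 :=
          hle (Ideal.mem_map_of_mem _ hπ)
        rw [← HeightOneSpectrum.intValuation_le_pow_iff_mem,
          ← HeightOneSpectrum.valuation_of_algebraMap (K := N)] at h1
        obtain ⟨u, hu⟩ := v.intValuation_exists_uniformizer
        have h2 : (u : N) ∈ O₀.nonunits := by
          rw [← hvm, ← v.intValuation_lt_one_iff_mem, hu]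
          exact WithZero.exp_lt_exp.2 (by norm_num)
        have h3 := hun _ h2
        rw [← hv, Valuation.mem_valuationSubring_iff, map_div₀] at h3
        have h4 : (v.valuation N) (algebraMap A N π) ≠ 0 := (Valuation.ne_zero_iff _).2 hπN
        rw [div_le_one₀ (zero_lt_iff.2 h4)] at h3
        have h5 : (v.valuation N) (u : N) = WithZero.exp (-1 : ℤ) := by
          rw [← hu, ← HeightOneSpectrum.valuation_of_algebraMap (K := N)]
          rfl
        rw [h5] at h3
        have h6 := h3.trans h1
        rw [WithZero.exp_le_exp] at h6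
        norm_num at h6
    rw [e1, one_mul, deg_res v O₀ hv hA₀ ρ₀ hρ₀]
    exact hodd
  · refine Finset.even_sum _ fun P hP => ?_
    rw [Finset.mem_erase, IsDedekindDomain.mem_primesOverFinset_iff hm0] at hP
    obtain ⟨hPv, hP1, hP2⟩ := hP
    refine Even.mul_left ?_ _
    have hP0 : P ≠ ⊥ := Ideal.ne_bot_of_liesOver_of_ne_bot hm0 P
    let w : HeightOneSpectrum (integralClosure A N) := ⟨P, hP1, hP0⟩
    have hwl : w.asIdeal.LiesOver (maximalIdeal A) := hP2
    have hA : ∀ a : A, algebraMap A N a ∈ (w.valuation N).valuationSubring := fun a =>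
      w.valuation_le_one (K := N) (algebraMap A (integralClosure A N) a)
    have hm : ∀ a ∈ maximalIdeal A, algebraMap A N a ∈ (w.valuation N).valuationSubring.nonunits := by
      intro a ha
      refine (mem_center w _ rfl (algebraMap A (integralClosure A N) a)).1 ?_
      have h1 := hP2.over
      rw [h1] at ha
      exact ha
    have e1 := deg_res w _ rfl hA (residue _) residue_surjective
    show Even (Ideal.inertiaDeg' (maximalIdeal A) w.asIdeal)
    rw [e1]
    refine heven _ hA hm _ _ residue_surjective ?_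
    intro heq
    apply hPv
    have h1 : (w.valuation N).IsEquiv (v.valuation N) :=
      (Valuation.isEquiv_iff_valuationSubring _ _).2 (heq.trans hv.symm)
    exact congrArg HeightOneSpectrum.asIdeal (HeightOneSpectrum.eq_of_valuation_isEquiv_valuation h1)

end

end

end Pool.Agent.Y692.LI
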