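import Pool.Agent.Y201.LI.Stm3
import Pool.Agent.Y270.C3.Base
import Pool.Agent.Y692.LI.Gen

/-! # Project LI, job FI (statement `S_FI` of helper201) -/

set_option autoImplicit false

namespace Pool.Agent.Y692.LI

open MvPolynomial Pool.Agent.TH314.PD IntermediateField Module Pool.Agent.Y201.LI IsLocalRing

noncomputable section

variable {r d : ℕ} {F : MvPolynomial (Fin r) ℂ} {N : Type} [Field N] [Algebra ℂ N] {z : Fin r → N}

/-- generic points -/
def Gn (z : Fin r → N) : Prop :=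
  ∀ (e : ℕ) (H : MvPolynomial (Fin r) ℂ), H.IsHomogeneous e → aeval z H = 0 → H = 0

lemma quot_form (hF : F.IsHomogeneous d) (hF0 : F ≠ 0) {e : ℕ} {P : MvPolynomial (Fin r) ℂ}
    (hP : P.IsHomogeneous e) (hP0 : P ≠ 0) (hdv : F ∣ P) :
    ∃ P' : MvPolynomial (Fin r) ℂ, P'.IsHomogeneous (e - d) ∧ P = F * P' ∧ d ≤ e := by
  have hde : d ≤ e := by
    have h1 := totalDegree_le_of_dvd_of_isDomain hdv hP0
    rwa [hF.totalDegree hF0, hP.totalDegree hP0] at h1
  obtain ⟨c, hc⟩ := hdv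
  refine ⟨homogeneousComponent (e - d) c, homogeneousComponent_isHomogeneous _ _, ?_, hde⟩
  rw [mul_comm F, ← hc_mul c F hF hde, mul_comm c F, ← hc, homogeneousComponent_eq_self hP]

lemma fac (hF : F.IsHomogeneous d) (hF0 : F ≠ 0) (hd : 2 ≤ d) (e : ℕ) :
    ∀ P : MvPolynomial (Fin r) ℂ, P.IsHomogeneous e → P ≠ 0 →
      ∃ (n e' : ℕ) (P' : MvPolynomial (Fin r) ℂ), P'.IsHomogeneous e' ∧ P = F ^ n * P' ∧
        ¬ F ∣ P' ∧ e = d * n + e' := by
  induction e using Nat.strong_induction_on with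
  | _ e ih =>
    intro P hP hP0
    by_cases hdv : F ∣ P
    · obtain ⟨P1, hP1, rfl, hde⟩ := quot_form hF hF0 hP hP0 hdv
      obtain ⟨n, e', P', hP', h1, h2, h3⟩ := ih (e - d) (by omega) P1 hP1
        (right_ne_zero_of_mul hP0)
      refine ⟨n + 1, e', P', hP', ?_, h2, ?_⟩
      · rw [h1]; ring
      · rw [mul_add, mul_one]; omega
    · exact ⟨0, e, P, hP, by rw [pow_zero, one_mul], hdv, by omega⟩

lemma not_dvd_one (hp : Prime F) : ¬ F ∣ 1 := fun h => hp.not_isUnit (isUnit_of_dvd_one h)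

lemma not_dvd_mul (hp : Prime F) {G H : MvPolynomial (Fin r) ℂ} (hG : ¬ F ∣ G) (hH : ¬ F ∣ H) :
    ¬ F ∣ G * H := fun h => (hp.dvd_or_dvd h).elim hG hH

lemma val_ne (hz : Gn z) {e : ℕ} {H : MvPolynomial (Fin r) ℂ} (hH : H.IsHomogeneous e)
    (hd : ¬ F ∣ H) : aeval z H ≠ 0 := by
  intro h
  apply hd
  rw [hz e H hH h]
  exact dvd_zero F

lemma not_dvd_X (hF : F.IsHomogeneous d) (hp : Prime F) (hd : 2 ≤ d) (j : Fin r) (n : ℕ) :
    ¬ F ∣ X j ^ n := by
  intro h
  have h1 := totalDegree_le_of_dvd_of_isDomain (hp.dvd_of_dvd_pow h) (X_ne_zero (R := ℂ) j)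
  rw [hF.totalDegree hp.ne_zero, totalDegree_X] at h1
  omega

/-- the local ring of projective space at the generic point of `F = 0` -/
def AA (hF : F.IsHomogeneous d) (hp : Prime F) (hd : 2 ≤ d) (hz : Gn z) (hj : ∃ j, z j ≠ 0) :
    ValuationSubring (ratioField z) where
  carrier := {a | ∃ (e : ℕ) (H H' : MvPolynomial (Fin r) ℂ), H.IsHomogeneous e ∧
    H'.IsHomogeneous e ∧ ¬ F ∣ H ∧ (a : N) * aeval z H = aeval z H'}
  mul_mem' := by
    rintro a b ⟨e1, H1, H1', h1, h1', n1, r1⟩ ⟨e2, H2, H2', h2, h2', n2, r2⟩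
    refine ⟨e1 + e2, H1 * H2, H1' * H2', h1.mul h2, h1'.mul h2', not_dvd_mul hp n1 n2, ?_⟩
    rw [map_mul, map_mul, ← r1, ← r2, IntermediateField.coe_mul]
    ring
  one_mem' := ⟨0, 1, 1, isHomogeneous_one _ _, isHomogeneous_one _ _, not_dvd_one hp, by simp⟩
  add_mem' := by
    rintro a b ⟨e1, H1, H1', h1, h1', n1, r1⟩ ⟨e2, H2, H2', h2, h2', n2, r2⟩
    refine ⟨e1 + e2, H1 * H2, H1' * H2 + H1 * H2', h1.mul h2, (h1'.mul h2).add (h1.mul h2'),
      not_dvd_mul hp n1 n2, ?_⟩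
    rw [map_mul, map_add, map_mul, map_mul, ← r1, ← r2, IntermediateField.coe_add]
    ring
  zero_mem' := ⟨0, 1, 0, isHomogeneous_one _ _, isHomogeneous_zero _ _ _, not_dvd_one hp, by simp⟩
  neg_mem' := by
    rintro a ⟨e1, H1, H1', h1, h1', n1, r1⟩
    refine ⟨e1, H1, -H1', h1, h1'.neg, n1, ?_⟩
    rw [map_neg, ← r1, IntermediateField.coe_neg]
    ring
  mem_or_inv_mem' := by
    intro x
    obtain ⟨j, hj⟩ := hj
    obtain ⟨e, P, Q, hP, hQ, hQ0, hx⟩ := Pool.Agent.Y270.C3.ratio_form hj x.2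
    have hQ0' : Q ≠ 0 := by rintro rfl; exact hQ0 (map_zero _)
    by_cases hP0 : P = 0
    · left
      refine ⟨0, 1, 0, isHomogeneous_one _ _, isHomogeneous_zero _ _ _, not_dvd_one hp, ?_⟩
      rw [hP0, map_zero] at hx
      rw [(mul_eq_zero.1 hx).resolve_left hQ0, zero_mul, map_zero]
    · obtain ⟨n, e', P', hP', rfl, nP, h3⟩ := fac hF hp.ne_zero hd e P hP hP0
      obtain ⟨m, e'', Q', hQ', rfl, nQ, h4⟩ := fac hF hp.ne_zero hd e Q hQ hQ0'
      have hFz : aeval z F ≠ 0 := fun h => hp.ne_zero (hz d F hF h)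
      rw [map_mul, map_mul, map_pow, map_pow] at hx
      rcases le_or_gt m n with h | h
      · left
        obtain ⟨k, rfl⟩ := Nat.exists_eq_add_of_le h
        refine ⟨e'', Q', F ^ k * P', hQ', ?_, nQ, ?_⟩
        · have h5 := (hF.pow k).mul hP'
          have h6 : d * k + e' = e'' := by
            rw [mul_add] at h3; omega
          rwa [h6] at h5
        · rw [map_mul, map_pow]
          have h7 := pow_ne_zero m hFz
          apply mul_left_cancel₀ h7
          rw [pow_add] at hx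
          linear_combination hx
      · right
        obtain ⟨k, rfl⟩ := Nat.exists_eq_add_of_le h.le
        have hx0 : (x : N) ≠ 0 := by
          intro h0
          rw [h0, mul_zero] at hx
          exact mul_ne_zero (pow_ne_zero n hFz) (val_ne hz hP' nP) hx.symm
        refine ⟨e', P', F ^ k * Q', hP', ?_, nP, ?_⟩
        · have h5 := (hF.pow k).mul hQ'
          have h6 : d * k + e'' = e' := by
            rw [mul_add] at h4; omega
          rwa [h6] at h5
        · rw [map_mul, map_pow, IntermediateField.coe_inv]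
          have h7 := pow_ne_zero n hFz
          apply mul_left_cancel₀ h7
          apply mul_left_cancel₀ hx0
          rw [pow_add] at hx
          have e1 : (x : N) * (aeval z F ^ n * ((x : N)⁻¹ * aeval z P')) =
              aeval z F ^ n * aeval z P' := by
            field_simp
          rw [e1, ← hx]
          ring

section

variable (hF : F.IsHomogeneous d) (hp : Prime F) (hd : 2 ≤ d) (hz : Gn z) (hj : ∃ j, z j ≠ 0)

/-- the algebra structure on the big field -/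
instance algAN : Algebra (AA hF hp hd hz hj) N :=
  ((algebraMap (ratioField z) N).comp (algebraMap (AA hF hp hd hz hj) (ratioField z))).toAlgebra

instance towAN : IsScalarTower (AA hF hp hd hz hj) (ratioField z) N :=
  IsScalarTower.of_algebraMap_eq fun _ => rfl

lemma algAN_apply (a : AA hF hp hd hz hj) :
    algebraMap (AA hF hp hd hz hj) N a = ((a : ratioField z) : N) := rfl

lemma algAN_inj : Function.Injective (algebraMap (AA hF hp hd hz hj) N) :=
  fun _ _ h => Subtype.ext (Subtype.ext h)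

lemma frac_mem {e : ℕ} {H H' : MvPolynomial (Fin r) ℂ} (hH : H.IsHomogeneous e)
    (hH' : H'.IsHomogeneous e) (hn : ¬ F ∣ H) :
    ∃ a : AA hF hp hd hz hj, algebraMap (AA hF hp hd hz hj) N a = aeval z H' / aeval z H := by
  refine ⟨⟨⟨aeval z H' / aeval z H, ratio_mem z hj hH' hH⟩, e, H, H', hH, hH', hn, ?_⟩, rfl⟩
  exact div_mul_cancel₀ _ (val_ne hz hH hn)

lemma mem_frac (a : AA hF hp hd hz hj) : ∃ (e : ℕ) (H H' : MvPolynomial (Fin r) ℂ),
    H.IsHomogeneous e ∧ H'.IsHomogeneous e ∧ ¬ F ∣ H ∧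
      algebraMap (AA hF hp hd hz hj) N a * aeval z H = aeval z H' := a.2

lemma unit_of (a : AA hF hp hd hz hj) {e : ℕ} {H H' : MvPolynomial (Fin r) ℂ}
    (hH : H.IsHomogeneous e) (hH' : H'.IsHomogeneous e) (hn' : ¬ F ∣ H')
    (ha : algebraMap (AA hF hp hd hz hj) N a * aeval z H = aeval z H') : IsUnit a := by
  obtain ⟨b, hb⟩ := frac_mem hF hp hd hz hj hH' hH hn'
  refine isUnit_iff_exists_inv.2 ⟨b, algAN_inj hF hp hd hz hj ?_⟩
  rw [map_mul, map_one, hb, ← mul_div_assoc, ha, div_self (val_ne hz hH' hn')]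

lemma nonunit_of (a : AA hF hp hd hz hj) {e : ℕ} {H H' : MvPolynomial (Fin r) ℂ}
    (hH : H.IsHomogeneous e) (hH' : H'.IsHomogeneous e) (hn : ¬ F ∣ H) (hn' : F ∣ H')
    (ha : algebraMap (AA hF hp hd hz hj) N a * aeval z H = aeval z H') : ¬ IsUnit a := by
  intro hu
  obtain ⟨b, hb⟩ := isUnit_iff_exists_inv.1 hu
  obtain ⟨e1, G, G', hG, hG', hnG, hbG⟩ := mem_frac hF hp hd hz hj b
  have h1 : algebraMap (AA hF hp hd hz hj) N a * algebraMap (AA hF hp hd hz hj) N b = 1 := by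
    rw [← map_mul, hb, map_one]
  have h2 : aeval z (H' * G' - H * G) = 0 := by
    rw [map_sub, map_mul, map_mul, ← ha, ← hbG]
    linear_combination (aeval z H * aeval z G) * h1
  have h3 := hz (e + e1) _ ((hH'.mul hG').sub (hH.mul hG)) h2
  have h4 : F ∣ H * G := by
    rw [← sub_eq_zero.1 h3]
    exact hn'.mul_right _
  exact not_dvd_mul hp hn hnG h4

lemma mem_max (a : AA hF hp hd hz hj) {e : ℕ} {H H' : MvPolynomial (Fin r) ℂ}
    (hH : H.IsHomogeneous e) (hH' : H'.IsHomogeneous e) (hn : ¬ F ∣ H)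
    (ha : algebraMap (AA hF hp hd hz hj) N a * aeval z H = aeval z H') :
    a ∈ maximalIdeal (AA hF hp hd hz hj) ↔ F ∣ H' := by
  rw [mem_maximalIdeal, mem_nonunits_iff]
  constructor
  · intro h
    by_contra h'
    exact h (unit_of hF hp hd hz hj a hH hH' h' ha)
  · intro h
    exact nonunit_of hF hp hd hz hj a hH hH' hn h ha

/-- the local ring is a discrete valuation ring -/
lemma dvr (j : Fin r) (hj' : z j ≠ 0) (π : AA hF hp hd hz hj)
    (hπ : algebraMap (AA hF hp hd hz hj) N π = aeval z F / z j ^ d) :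
    IsDiscreteValuationRing (AA hF hp hd hz hj) := by
  have hπ' : algebraMap (AA hF hp hd hz hj) N π * aeval z (X j ^ d : MvPolynomial (Fin r) ℂ) =
      aeval z F := by
    rw [hπ, map_pow, aeval_X, div_mul_cancel₀ _ (pow_ne_zero d hj')]
  have hXd : (X j ^ d : MvPolynomial (Fin r) ℂ).IsHomogeneous d := by
    have := (isHomogeneous_X ℂ j).pow d
    rwa [one_mul] at this
  have hπu : ¬ IsUnit π :=
    nonunit_of hF hp hd hz hj π hXd hF (not_dvd_X hF hp hd j d) dvd_rfl hπ'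
  have hFz : aeval z F ≠ 0 := fun h => hp.ne_zero (hz d F hF h)
  have hπ0 : π ≠ 0 := by
    intro h
    rw [h, map_zero, zero_mul] at hπ'
    exact hFz hπ'.symm
  have hdv : ∀ a : AA hF hp hd hz hj, ¬ IsUnit a → π ∣ a := by
    intro a hau
    obtain ⟨e, H, H', hH, hH', hn, ha⟩ := mem_frac hF hp hd hz hj a
    have hdv : F ∣ H' := by
      by_contra h'
      exact hau (unit_of hF hp hd hz hj a hH hH' h' ha)
    by_cases h0 : H' = 0
    · rw [h0, map_zero] at ha
      have h1 := (mul_eq_zero.1 ha).resolve_right (val_ne hz hH hn)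
      have h2 : a = 0 := algAN_inj hF hp hd hz hj (by rw [h1, map_zero])
      rw [h2]
      exact dvd_zero π
    · obtain ⟨P', hP', rfl, hde⟩ := quot_form hF hp.ne_zero hH' h0 hdv
      have h1 : (X j ^ d * P').IsHomogeneous e := by
        have := hXd.mul hP'
        rwa [Nat.add_sub_cancel' hde] at this
      obtain ⟨b, hb⟩ := frac_mem hF hp hd hz hj hH h1 hn
      refine ⟨b, algAN_inj hF hp hd hz hj ?_⟩
      have h2 := val_ne hz hH hn
      rw [map_mul, hb, hπ]
      have h3 : algebraMap (AA hF hp hd hz hj) N a = aeval z (F * P') / aeval z H := by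
        rw [← ha, mul_div_cancel_right₀ _ h2]
      rw [h3, map_mul, map_mul, map_pow, aeval_X]
      field_simp
  refine IsDiscreteValuationRing.ofHasUnitMulPowIrreducibleFactorization ⟨π, ⟨hπu, ?_⟩, ?_⟩
  · intro a b hab
    by_contra h
    push Not at h
    obtain ⟨a', rfl⟩ := hdv a h.1
    obtain ⟨b', rfl⟩ := hdv b h.2
    apply hπu
    refine isUnit_iff_exists_inv.2 ⟨a' * b', ?_⟩
    apply mul_left_cancel₀ hπ0
    rw [mul_one]
    conv_rhs => rw [hab]
    ring
  · intro a ha0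
    obtain ⟨e, H, H', hH, hH', hn, ha⟩ := mem_frac hF hp hd hz hj a
    have h0 : H' ≠ 0 := by
      intro h0
      rw [h0, map_zero] at ha
      have h1 := (mul_eq_zero.1 ha).resolve_right (val_ne hz hH hn)
      exact ha0 (algAN_inj hF hp hd hz hj (by rw [h1, map_zero]))
    obtain ⟨n, e', P', hP', rfl, nP, h3⟩ := fac hF hp.ne_zero hd e H' hH' h0
    have h1 : ((X j ^ d) ^ n * P').IsHomogeneous e := by
      have := (hXd.pow n).mul hP'
      rwa [← h3] at this
    have hnP : ¬ F ∣ (X j ^ d) ^ n * P' := by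
      rw [← pow_mul]
      exact not_dvd_mul hp (not_dvd_X hF hp hd j _) nP
    obtain ⟨b, hb⟩ := frac_mem hF hp hd hz hj hH h1 hn
    have h2 := val_ne hz hH hn
    have hbu : IsUnit b := unit_of hF hp hd hz hj b hH h1 hnP (by rw [hb, div_mul_cancel₀ _ h2])
    refine ⟨n, hbu.unit, algAN_inj hF hp hd hz hj ?_⟩
    have h3 : algebraMap (AA hF hp hd hz hj) N a = aeval z (F ^ n * P') / aeval z H := by
      rw [← ha, mul_div_cancel_right₀ _ h2]
    rw [IsUnit.unit_spec, map_mul, map_pow, hb, hπ, h3, map_mul, map_mul, map_pow, map_pow, map_pow,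
      aeval_X, div_pow]
    have h4 := pow_ne_zero n (pow_ne_zero d hj')
    field_simp

/-- evaluation in the residue field -/
lemma eval_res {κ : Type} [Field κ] [Algebra ℂ κ] {O : ValuationSubring N} (ρ : O →+* κ)
    (hres : IsRes O ρ) (hc : ∀ c : ℂ, algebraMap ℂ N c ∈ O) {j : Fin r} (hj' : z j ≠ 0)
    (h : ∀ i, z i / z j ∈ O) {x : Fin r → κ} (hx : ∀ i, x i = ρ ⟨z i / z j, h i⟩)
    {e : ℕ} {G : MvPolynomial (Fin r) ℂ} (hG : G.IsHomogeneous e) :
    ∃ g : O, (g : N) * z j ^ e = aeval z G ∧ ρ g = aeval x G := by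
  let c : ℂ →+* O := (algebraMap ℂ N).codRestrict O hc
  let y : Fin r → O := fun i => ⟨z i / z j, h i⟩
  refine ⟨eval₂ c y G, ?_, ?_⟩
  · have h1 : ((eval₂ c y G : O) : N) = aeval (fun i => z i / z j) G := by
      have h2 := MvPolynomial.hom_eval₂ G c O.subtype y
      exact h2
    rw [h1, mul_comm, ← aeval_smul_form hG]
    congr 2
    funext i
    rw [mul_div_cancel₀ _ hj']
  · have h2 := MvPolynomial.hom_eval₂ G c ρ y
    rw [h2, aeval_def]
    congr 1
    · ext a
      exact hres.2 a (hc a)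
    · funext i
      exact (hx i).symm

/-- the residue degree -/
lemma deg_eq {κ : Type} [Field κ] [Algebra ℂ κ] (O : ValuationSubring N) (ρ : O →+* κ)
    (hres : IsRes O ρ) (hov : Over F z O) (x : Fin r → κ) (hred : Red O ρ z x)
    (hA : ∀ a : AA hF hp hd hz hj, algebraMap (AA hF hp hd hz hj) N a ∈ O) :
    finrank (ratioField x) κ = finrank (psi O hA ρ).range κ := by
  obtain ⟨j, hj', hx⟩ := hred
  choose h hx using hx
  have hc : ∀ c : ℂ, algebraMap ℂ N c ∈ O := by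
    intro c
    have h1 := (hov 0 1 (C c) (isHomogeneous_one _ _) (isHomogeneous_C _ _) (not_dvd_one hp)).1
    rwa [map_one, div_one, aeval_C] at h1
  have hxj : x j = 1 := by
    rw [hx j]
    have h1 : (⟨z j / z j, h j⟩ : O) = 1 := Subtype.ext (div_self hj')
    rw [h1, map_one]
  have hXd : ∀ e, (X j ^ e : MvPolynomial (Fin r) ℂ).IsHomogeneous e := by
    intro e
    have := (isHomogeneous_X ℂ j).pow e
    rwa [one_mul] at this
  have hne : ∀ (e : ℕ) (H : MvPolynomial (Fin r) ℂ), H.IsHomogeneous e → ¬ F ∣ H →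
      aeval x H ≠ 0 := by
    intro e H hH hn h0
    obtain ⟨g, hg, hgx⟩ := eval_res ρ hres hc hj' h hx hH
    have h1 := (hov e H (X j ^ e) hH (hXd e) hn).1
    have h2 : g * ⟨_, h1⟩ = 1 := by
      apply Subtype.ext
      show (g : N) * (aeval z (X j ^ e) / aeval z H) = 1
      rw [map_pow, aeval_X, ← mul_div_assoc, hg, div_self (val_ne hz hH hn)]
    have h3 := congrArg ρ h2
    rw [map_mul, hgx, h0, zero_mul, map_one] at h3
    exact zero_ne_one h3
  have hF0 : aeval x F = 0 := by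
    obtain ⟨g, hg, hgx⟩ := eval_res ρ hres hc hj' h hx hF
    rw [← hgx, rho_eq_zero ρ hres.1]
    have h1 := (hov d (X j ^ d) F (hXd d) hF (not_dvd_X hF hp hd j d)).2 dvd_rfl
    rwa [map_pow, aeval_X, ← hg, mul_div_cancel_right₀ _ (pow_ne_zero d hj')] at h1
  have hpsi : ∀ (a : AA hF hp hd hz hj) (e : ℕ) (H H' : MvPolynomial (Fin r) ℂ),
      H.IsHomogeneous e → H'.IsHomogeneous e →
      algebraMap (AA hF hp hd hz hj) N a * aeval z H = aeval z H' →
      psi O hA ρ a * aeval x H = aeval x H' := by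
    intro a e H H' hH hH' ha
    obtain ⟨g, hg, hgx⟩ := eval_res ρ hres hc hj' h hx hH
    obtain ⟨g', hg', hgx'⟩ := eval_res ρ hres hc hj' h hx hH'
    rw [← hgx, ← hgx', psi_apply, ← map_mul]
    congr 1
    apply Subtype.ext
    apply mul_right_cancel₀ (pow_ne_zero e hj')
    show algebraMap (AA hF hp hd hz hj) N a * (g : N) * z j ^ e = (g' : N) * z j ^ e
    rw [hg', ← ha, ← hg, mul_assoc]
  refine finrank_of_range (algebraMap (ratioField x) κ).injective Subtype.val_injective ?_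
  have hxj0 : x j ≠ 0 := by rw [hxj]; exact one_ne_zero
  ext y
  constructor
  · rintro ⟨y, rfl⟩
    obtain ⟨e, P, Q, hP, hQ, hQ0, hy⟩ := Pool.Agent.Y270.C3.ratio_form hxj0 y.2
    have hnQ : ¬ F ∣ Q := by
      rintro ⟨c, rfl⟩
      rw [map_mul, hF0, zero_mul] at hQ0
      exact hQ0 rfl
    obtain ⟨a, ha⟩ := frac_mem hF hp hd hz hj hQ hP hnQ
    have h1 := hpsi a e Q P hQ hP (by rw [ha, div_mul_cancel₀ _ (val_ne hz hQ hnQ)])
    refine ⟨⟨_, a, rfl⟩, ?_⟩
    apply mul_right_cancel₀ hQ0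
    show psi O hA ρ a * aeval x Q = (y : κ) * aeval x Q
    rw [h1, ← hy, mul_comm]
  · rintro ⟨⟨_, a, rfl⟩, rfl⟩
    obtain ⟨e, H, H', hH, hH', hn, ha⟩ := mem_frac hF hp hd hz hj a
    have h1 := hpsi a e H H' hH hH' ha
    have h2 := ratio_mem x ⟨j, hxj0⟩ hH' hH
    refine ⟨⟨_, h2⟩, ?_⟩
    show aeval x H' / aeval x H = psi O hA ρ a
    rw [← h1, mul_div_cancel_right₀ _ (hne e H hH hn)]

end

/-- **the fundamental identity modulo two** -/
theorem fi : S_FI := by
  intro r d F hF hd hirr N _ _ z hz' hfd O₀ κ₀ _ _ ρ₀ x₀ hres₀ hov₀ hred₀ hun hodd heven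
  have hz : Gn z := hz'
  have hp : Prime F := hirr.prime
  have hj : ∃ j, z j ≠ 0 := by
    obtain ⟨j, hj, _⟩ := hred₀
    exact ⟨j, hj⟩
  obtain ⟨j, hj'⟩ := hj
  have hXd : ∀ e, (X j ^ e : MvPolynomial (Fin r) ℂ).IsHomogeneous e := by
    intro e
    have := (isHomogeneous_X ℂ j).pow e
    rwa [one_mul] at this
  obtain ⟨π, hπ⟩ := frac_mem hF hp hd hz ⟨j, hj'⟩ (hXd d) hF (not_dvd_X hF hp hd j d)
  have hπ' : algebraMap (AA hF hp hd hz ⟨j, hj'⟩) N π = aeval z F / z j ^ d := by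
    rw [hπ, map_pow, aeval_X]
  have i1 : IsDiscreteValuationRing (AA hF hp hd hz ⟨j, hj'⟩) :=
    dvr hF hp hd hz ⟨j, hj'⟩ j hj' π hπ'
  have i2 : CharZero (ratioField z) :=
    charZero_of_injective_algebraMap (algebraMap ℂ (ratioField z)).injective
  have hAof : ∀ O : ValuationSubring N, Over F z O →
      ∀ a : AA hF hp hd hz ⟨j, hj'⟩, algebraMap (AA hF hp hd hz ⟨j, hj'⟩) N a ∈ O := by
    intro O hov a
    obtain ⟨e, H, H', hH, hH', hn, ha⟩ := mem_frac hF hp hd hz ⟨j, hj'⟩ a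
    have h1 := (hov e H H' hH hH' hn).1
    rwa [← ha, mul_div_cancel_right₀ _ (val_ne hz hH hn)] at h1
  have hmof : ∀ O : ValuationSubring N, Over F z O →
      ∀ a ∈ maximalIdeal (AA hF hp hd hz ⟨j, hj'⟩),
        algebraMap (AA hF hp hd hz ⟨j, hj'⟩) N a ∈ O.nonunits := by
    intro O hov a ham
    obtain ⟨e, H, H', hH, hH', hn, ha⟩ := mem_frac hF hp hd hz ⟨j, hj'⟩ a
    rw [mem_max hF hp hd hz ⟨j, hj'⟩ a hH hH' hn ha] at ham
    have h1 := (hov e H H' hH hH' hn).2 ham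
    rwa [← ha, mul_div_cancel_right₀ _ (val_ne hz hH hn)] at h1
  have hFz : aeval z F ≠ 0 := fun h => hp.ne_zero (hz d F hF h)
  have hπ0 : π ≠ 0 := by
    intro h
    rw [h, map_zero] at hπ'
    exact div_ne_zero hFz (pow_ne_zero d hj') hπ'.symm
  have hπm : π ∈ maximalIdeal (AA hF hp hd hz ⟨j, hj'⟩) := by
    rw [mem_max hF hp hd hz ⟨j, hj'⟩ π (hXd d) hF (not_dvd_X hF hp hd j d)]
    rw [hπ, div_mul_cancel₀]
    rw [map_pow, aeval_X]
    exact pow_ne_zero d hj'
  refine gen (A := AA hF hp hd hz ⟨j, hj'⟩) (ratioField z) O₀ (hAof O₀ hov₀) (hmof O₀ hov₀) κ₀ ρ₀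
    hres₀.1 π hπm hπ0 ?_ ?_ ?_
  · intro a ha
    have h1 := hun a ha j
    rw [hπ']
    have h2 : a / (aeval z F / z j ^ d) = z j ^ d * a / aeval z F := by
      field_simp
    rw [h2]
    exact h1
  · rw [← deg_eq hF hp hd hz ⟨j, hj'⟩ O₀ ρ₀ hres₀ hov₀ x₀ hred₀]
    exact hodd
  · intro O hA hm κ _ ρ hρ hne
    have hov : Over F z O := by
      intro e H H' hH hH' hn
      obtain ⟨a, ha⟩ := frac_mem hF hp hd hz ⟨j, hj'⟩ hH hH' hn
      rw [← ha]
      refine ⟨hA a, fun hdv => hm a ?_⟩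
      rw [mem_max hF hp hd hz ⟨j, hj'⟩ a hH hH' hn (by rw [ha, div_mul_cancel₀ _ (val_ne hz hH hn)])]
      exact hdv
    have hc : ∀ c : ℂ, algebraMap ℂ N c ∈ O := by
      intro c
      have h1 := (hov 0 1 (C c) (isHomogeneous_one _ _) (isHomogeneous_C _ _) (not_dvd_one hp)).1
      rwa [map_one, div_one, aeval_C] at h1
    let _ : Algebra ℂ κ := (ρ.comp ((algebraMap ℂ N).codRestrict O hc)).toAlgebra
    have hres : IsRes O ρ := ⟨hρ, fun c h => rfl⟩
    have hzO : ∀ i, z i / z j ∈ O := by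
      intro i
      have hn : ¬ F ∣ X j := by
        have := not_dvd_X hF hp hd j 1
        rwa [pow_one] at this
      have h1 := (hov 1 (X j) (X i) (isHomogeneous_X _ _) (isHomogeneous_X _ _) hn).1
      rwa [aeval_X, aeval_X] at h1
    have hred : Red O ρ z (fun i => ρ ⟨z i / z j, hzO i⟩) := ⟨j, hj', fun i => ⟨hzO i, rfl⟩⟩
    rw [← deg_eq hF hp hd hz ⟨j, hj'⟩ O ρ hres hov _ hred hA]
    exact heven O κ ρ _ hres hov hred hne

end

end Pool.Agent.Y692.LI
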